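import Pool.Agent.W412.TI.Spec

set_option autoImplicit false

/-!
# Limits of transitive interval maps are chain transitive
-/

namespace Pool.Agent.W2.TI

open Set Pool.Agent.W412.TI

theorem chain (f h : C(unitInterval, unitInterval)) (ε : ℝ) (y : unitInterval)
    (hd : ∀ w, |((h w : unitInterval) : ℝ) - f w| < ε / 2) (hε : 0 < ε) (n : ℕ) :
    ∀ z : unitInterval, |(((⇑h)^[n + 1] z : unitInterval) : ℝ) - y| < ε / 2 →
      Relation.TransGen (Step f ε) z y := by
  induction n with
  | zero =>
    intro z hz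
    refine Relation.TransGen.single ?_
    have h1 := hd z
    have h2 : |((h z : unitInterval) : ℝ) - y| < ε / 2 := hz
    unfold Step
    rw [abs_lt] at h1 h2 ⊢
    constructor <;> linarith [h1.1, h1.2, h2.1, h2.2]
  | succ n ih =>
    intro z hz
    refine Relation.TransGen.head (b := h z) ?_ (ih (h z) hz)
    unfold Step
    have h1 := hd z
    linarith

theorem ctFacts : S_CT := by
  intro f hf ε hε x y
  obtain ⟨h, hT, hfh⟩ := Metric.mem_closure_iff.1 hf (ε / 2) (by positivity)
  have hd : ∀ w, |((h w : unitInterval) : ℝ) - f w| < ε / 2 := by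
    intro w
    have h1 : dist (f w) (h w) ≤ dist f h := ContinuousMap.dist_apply_le_dist w
    rw [Subtype.dist_eq, Real.dist_eq, abs_sub_comm] at h1
    linarith
  obtain ⟨n, hn, w, ⟨z, hz, hzw⟩, hw⟩ := hT (Metric.ball (f x) (ε / 2)) (Metric.ball y (ε / 2))
    Metric.isOpen_ball Metric.isOpen_ball ⟨f x, Metric.mem_ball_self (by positivity)⟩
    ⟨y, Metric.mem_ball_self (by positivity)⟩
  obtain ⟨m, rfl⟩ : ∃ m, n = m + 1 := ⟨n - 1, by omega⟩
  rw [Metric.mem_ball, Subtype.dist_eq, Real.dist_eq] at hz hw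
  rw [← hzw] at hw
  refine Relation.TransGen.head (b := z) ?_ (chain f h ε y hd hε m z hw)
  unfold Step
  linarith

end Pool.Agent.W2.TI
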